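import Pool.Agent.U896.SC.P9
import Pool.Agent.Q130.SF.Fam

/-!
# Smooth taming forms: weak derivatives and uniform taming
-/

set_option autoImplicit false

open Set Filter Topology Metric Function MeasureTheory
open scoped Manifold ContDiff

noncomputable section

namespace Pool.Agent.U896.EQ

open Pool.Agent.Y501.SY

variable {d : ℕ}

theorem int_on {T : Set (E d)} (hT : IsOpen T) {f : E d → ℝ} {g : E d → ℝ} (hf : ContinuousOn f T)
    (hg : HasCompactSupport g) (hgT : tsupport g ⊆ T) (h0 : ∀ q, q ∉ tsupport g → f q = 0) :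
    Integrable f := by
  have h1 : IntegrableOn f (tsupport g) volume :=
    (hf.mono hgT).integrableOn_compact hg
  exact h1.integrable_of_forall_notMem_eq_zero h0

theorem ibp {T : Set (E d)} (hT : IsOpen T) {F g : E d → ℝ} (hF : ContDiffOn ℝ ∞ F T)
    (hg : ContDiff ℝ ∞ g) (hgc : HasCompactSupport g) (hgT : tsupport g ⊆ T) (u : E d) :
    Integrable (fun q => g q * fderiv ℝ F q u) ∧ Integrable (fun q => fderiv ℝ g q u * F q) ∧
      (∫ q, g q * fderiv ℝ F q u) + (∫ q, fderiv ℝ g q u * F q) = 0 := by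
  have hg0 : ∀ q, q ∉ tsupport g → g q = 0 := fun q hq => image_eq_zero_of_notMem_tsupport hq
  have hg1 : ∀ q, q ∉ tsupport g → fderiv ℝ g q = 0 := fun q hq =>
    image_eq_zero_of_notMem_tsupport fun h => hq (tsupport_fderiv_subset ℝ h)
  have hF' : ContinuousOn (fun q => fderiv ℝ F q u) T :=
    (hF.continuousOn_fderiv_of_isOpen hT (by simp)).clm_apply continuousOn_const
  have hg' : Continuous fun q => fderiv ℝ g q u :=
    (hg.continuous_fderiv (by simp)).clm_apply continuous_const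
  have i1 : Integrable (fun q => g q * fderiv ℝ F q u) :=
    int_on hT (hg.continuous.continuousOn.mul hF') hgc hgT fun q hq => by rw [hg0 q hq, zero_mul]
  have i2 : Integrable (fun q => fderiv ℝ g q u * F q) :=
    int_on hT (hg'.continuousOn.mul hF.continuousOn) hgc hgT fun q hq => by
      rw [hg1 q hq]
      simp
  have i3 : Integrable (fun q => g q * F q) :=
    int_on hT (hg.continuous.continuousOn.mul hF.continuousOn) hgc hgT fun q hq => by
      rw [hg0 q hq, zero_mul]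
  refine ⟨i1, i2, ?_⟩
  have h1 := integral_mul_fderiv_eq_neg_fderiv_mul_of_integrable (μ := volume) (f := g) (g := F)
    (v := u) i2 i1 i3 (fun x _ => (hg.differentiable (by simp)).differentiableAt)
    (fun x hx => (hF.contDiffAt (hT.mem_nhds (hgT hx))).differentiableAt (by simp))
  rw [h1]
  ring

/-- smooth pairs are weak pairs -/
theorem weak_of_smooth {T : Set (E d)} (hT : IsOpen T) {b : E d → (E d) [⋀^Fin 1]→L[ℝ] ℝ}
    {s : E d → (E d) [⋀^Fin 2]→L[ℝ] ℝ}
    (hb : ContDiffOn ℝ ∞ b T) (hs : ∀ p ∈ T, extDeriv b p = s p) {g : E d → ℝ}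
    (hg : ContDiff ℝ ∞ g) (hgc : HasCompactSupport g) (hgT : tsupport g ⊆ T) (u v : E d) :
    ∫ q, (g q * s q ![u, v] + fderiv ℝ g q u * b q ![v] - fderiv ℝ g q v * b q ![u]) = 0 := by
  have hbv : ∀ v : E d, ContDiffOn ℝ ∞ (fun q => b q ![v]) T := by
    intro v
    exact (ContinuousAlternatingMap.apply ℝ (E d) ℝ ![v]).contDiff.comp_contDiffOn hb
  obtain ⟨a1, a2, a3⟩ := ibp hT (hbv v) hg hgc hgT u
  obtain ⟨b1, b2, b3⟩ := ibp hT (hbv u) hg hgc hgT v
  have h1 : (fun q => g q * s q ![u, v] + fderiv ℝ g q u * b q ![v] -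
      fderiv ℝ g q v * b q ![u]) = fun q => (g q * fderiv ℝ (fun q => b q ![v]) q u +
        fderiv ℝ g q u * b q ![v]) - (g q * fderiv ℝ (fun q => b q ![u]) q v +
        fderiv ℝ g q v * b q ![u]) := by
    funext q
    by_cases hq : q ∈ tsupport g
    · have hd : DifferentiableAt ℝ b q :=
        (hb.contDiffAt (hT.mem_nhds (hgT hq))).differentiableAt (by simp)
      have h2 : s q ![u, v] = fderiv ℝ (fun q => b q ![v]) q u -
          fderiv ℝ (fun q => b q ![u]) q v := by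
        rw [← hs q (hgT hq), extDeriv_apply hd, Fin.sum_univ_two]
        have e0 : (0 : Fin 2).removeNth ![u, v] = ![v] := by
          funext i
          fin_cases i
          rfl
        have e1 : (1 : Fin 2).removeNth ![u, v] = ![u] := by
          funext i
          fin_cases i
          rfl
        rw [e0, e1]
        simp
        ring
      rw [h2]
      ring
    · have h2 : g q = 0 := image_eq_zero_of_notMem_tsupport hq
      rw [h2]
      ring
  have a4 : Integrable (fun q => g q * fderiv ℝ (fun q => b q ![v]) q u +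
      fderiv ℝ g q u * b q ![v]) := a1.add a2
  have b4 : Integrable (fun q => g q * fderiv ℝ (fun q => b q ![u]) q v +
      fderiv ℝ g q v * b q ![u]) := b1.add b2
  rw [h1, integral_sub a4 b4, integral_add a1 a2, integral_add b1 b2, a3, b3, sub_zero]

section

variable {X : Type} [TopologicalSpace X] [ChartedSpace (E d) X] [IsManifold (𝓡 d) ∞ X]

/-- smooth taming forms are uniformly taming -/
theorem unif_of_tames {σ : Form d X 2} (hσ : IsSmooth σ) {J : End d X} (hJ : IsAlmostComplex J)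
    (x : X) (ht : TamesAt σ J x) : ∃ c : ℝ, 0 < c ∧ ∀ᶠ p in 𝓝 (chartAt (E d) x x), ∀ v : E d,
      c * ‖v‖ ^ 2 ≤ pb (chartAt (E d) x).symm σ p ![v, inChart J x p v] := by
  obtain ⟨p₀, hp₀⟩ : ∃ p₀, p₀ = chartAt (E d) x x := ⟨_, rfl⟩
  have hpt : p₀ ∈ (chartAt (E d) x).target := by rw [hp₀]; exact mem_chart_target (E d) x
  have hx' : ∀ v : E d, v ≠ 0 → 0 < Pool.Agent.Y455.SY.Q σ J x p₀ v := by
    rw [← Pool.Agent.Y455.SY.tames_iff σ J x hpt, hp₀,
      (chartAt (E d) x).left_inv (mem_chart_source (E d) x)]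
    exact ht
  rw [← hp₀]
  have key : ∃ c : ℝ, 0 < c ∧ ∀ᶠ p in 𝓝 p₀, ∀ v ∈ sphere (0 : E d) 1,
      c ≤ Pool.Agent.Y455.SY.Q σ J x p v := by
    refine (isCompact_sphere (0 : E d) 1).induction_on (p := fun S => ∃ c : ℝ, 0 < c ∧
      ∀ᶠ p in 𝓝 p₀, ∀ v ∈ S, c ≤ Pool.Agent.Y455.SY.Q σ J x p v) ?_ ?_ ?_ ?_
    · exact ⟨1, one_pos, Eventually.of_forall fun p v hv => absurd hv (notMem_empty v)⟩
    · rintro s t hst ⟨c, hc, h⟩
      exact ⟨c, hc, h.mono fun p hp v hv => hp v (hst hv)⟩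
    · rintro s t ⟨c, hc, h⟩ ⟨c', hc', h'⟩
      refine ⟨min c c', lt_min hc hc', ?_⟩
      filter_upwards [h, h'] with p hp hp' v hv
      rcases hv with hv | hv
      · exact (min_le_left _ _).trans (hp v hv)
      · exact (min_le_right _ _).trans (hp' v hv)
    · intro v hv
      have hv0 : v ≠ 0 := by
        rintro rfl
        simp at hv
      have h1 := hx' v hv0
      have h2 := (Pool.Agent.Y455.SY.Q_cont hσ hJ x (v := v) hpt).eventually
        (lt_mem_nhds (half_lt_self h1))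
      rw [nhds_prod_eq, eventually_prod_iff] at h2
      obtain ⟨pa, hpa, pb', hpb, h3⟩ := h2
      refine ⟨{w | pb' w}, mem_nhdsWithin_of_mem_nhds hpb, _, half_pos h1, ?_⟩
      filter_upwards [hpa] with p hp w hw
      exact (h3 hp hw).le
  obtain ⟨c, hc, h1⟩ := key
  refine ⟨c, hc, ?_⟩
  filter_upwards [h1] with p hp v
  show c * ‖v‖ ^ 2 ≤ Pool.Agent.Y455.SY.Q σ J x p v
  by_cases hv : v = 0
  · have h2 := Pool.Agent.Y455.SY.Q_smul σ J x p v 0
    rw [zero_smul] at h2
    rw [hv, h2, norm_zero]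
    simp
  · have hn : 0 < ‖v‖ := norm_pos_iff.2 hv
    have h2 : v = ‖v‖ • (‖v‖⁻¹ • v) := by
      rw [smul_smul, mul_inv_cancel₀ hn.ne', one_smul]
    have h3 : ‖v‖⁻¹ • v ∈ sphere (0 : E d) 1 := by
      rw [mem_sphere_zero_iff_norm, norm_smul, norm_inv, norm_norm, inv_mul_cancel₀ hn.ne']
    have h4 := hp _ h3
    have h5 : Pool.Agent.Y455.SY.Q σ J x p v =
        ‖v‖ ^ 2 * Pool.Agent.Y455.SY.Q σ J x p (‖v‖⁻¹ • v) := by
      conv_lhs => rw [h2]
      exact Pool.Agent.Y455.SY.Q_smul σ J x p _ _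
    rw [h5, mul_comm]
    exact mul_le_mul_of_nonneg_left h4 (by positivity)

/-- smooth taming forms have bounded eccentricity -/
theorem ecc_of_tames {σ : Form d X 2} (hσ : IsSmooth σ) {J : End d X} (hJ : IsAlmostComplex J)
    (x : X) (ht : TamesAt σ J x) : ∃ c : ℝ, 0 < c ∧ ∀ᶠ p in 𝓝 (chartAt (E d) x x), ∀ v : E d,
      c * ‖pb (chartAt (E d) x).symm σ p‖ * ‖v‖ ^ 2 ≤
        pb (chartAt (E d) x).symm σ p ![v, inChart J x p v] := by
  obtain ⟨c, hc, h1⟩ := unif_of_tames hσ hJ x ht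
  obtain ⟨p₀, hp₀⟩ : ∃ p₀, p₀ = chartAt (E d) x x := ⟨_, rfl⟩
  have hpt : p₀ ∈ (chartAt (E d) x).target := by rw [hp₀]; exact mem_chart_target (E d) x
  rw [← hp₀] at h1 ⊢
  have h2 : ContinuousAt (pb (chartAt (E d) x).symm σ) p₀ :=
    ((hσ _ _ (chartAt (E d) x).open_target (contMDiffOn_chart_symm)).continuousOn).continuousAt
      ((chartAt (E d) x).open_target.mem_nhds hpt)
  obtain ⟨M, hM⟩ : ∃ M, M = ‖pb (chartAt (E d) x).symm σ p₀‖ + 1 := ⟨_, rfl⟩
  have hM0 : 0 < M := by rw [hM]; positivity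
  have h3 : ∀ᶠ p in 𝓝 p₀, ‖pb (chartAt (E d) x).symm σ p‖ < M :=
    h2.norm.eventually (gt_mem_nhds (by rw [hM]; linarith))
  refine ⟨c / M, by positivity, ?_⟩
  filter_upwards [h1, h3] with p hp hp' v
  refine le_trans ?_ (hp v)
  refine mul_le_mul_of_nonneg_right ?_ (by positivity)
  rw [div_mul_eq_mul_div, div_le_iff₀ hM0]
  exact mul_le_mul_of_nonneg_left hp'.le hc.le

end

end Pool.Agent.U896.EQ
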