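import Pool.Agent.U896.EQ.Q3

/-!
# Extension of families of tamed almost complex structures from a closed subset
-/

set_option autoImplicit false

open Set Filter Topology Metric Function
open scoped Manifold ContDiff RealInnerProductSpace

noncomputable section

namespace Pool.Agent.U896.EQ

open Pool.Agent.Y501.SY Pool.Agent.Y455.SY Pool.Agent.Q130.SF

variable {d : ℕ} {X : Type} [TopologicalSpace X] [ChartedSpace (E d) X]
  {P : Type} [TopologicalSpace P]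

theorem sub_cont {Y : Type} [TopologicalSpace Y] {S : Set P} {U : Set (E d)} {f : P × E d → Y}
    (h : ContinuousOn f (S ×ˢ U)) :
    ContinuousOn (fun q : S × E d => f (q.1.1, q.2)) (univ ×ˢ U) :=
  h.comp (f := fun q : S × E d => (q.1.1, q.2))
    ((continuous_subtype_val.comp continuous_fst).prodMk continuous_snd).continuousOn
    fun q hq => ⟨q.1.2, hq.2⟩

theorem cont_sub {Y : Type} [TopologicalSpace Y] {S : Set P} {U : Set (E d)} {f : P × E d → Y}
    (h : ContinuousOn (fun q : S × E d => f (q.1.1, q.2)) (univ ×ˢ U)) :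
    ContinuousOn f (S ×ˢ U) := by
  have h1 : IsInducing (fun q : S × E d => (q.1.1, q.2)) :=
    IsInducing.subtypeVal.prodMap IsInducing.id
  have h2 : (fun q : S × E d => (q.1.1, q.2)) '' (univ ×ˢ U) = S ×ˢ U := by
    ext ⟨p, u⟩
    constructor
    · rintro ⟨⟨p', u'⟩, ⟨-, h3⟩, h4⟩
      obtain ⟨rfl, rfl⟩ := Prod.mk.inj h4
      exact ⟨p'.2, h3⟩
    · rintro ⟨h3, h4⟩
      exact ⟨(⟨p, h3⟩, u), ⟨mem_univ _, h4⟩, rfl⟩
  rw [← h2]
  exact h1.continuousOn_image_iff.2 h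

theorem CFam.sub {k : ℕ} {S : Set P} {Ω : P → Form d X k} (h : CFam S Ω) :
    CFam (P := S) univ (fun p : S => Ω p.1) := fun U φ hU hφ j => sub_cont (h U φ hU hφ j)

theorem CFam.of_sub {k : ℕ} {S : Set P} {Ω : P → Form d X k}
    (h : CFam (P := S) univ (fun p : S => Ω p.1)) : CFam S Ω :=
  fun U φ hU hφ j => cont_sub (h U φ hU hφ j)

theorem JFamOn.sub {S : Set P} {J : P → End d X} (h : JFamOn S J) :
    JFam (P := S) (fun p : S => J p.1) := fun x₀ => sub_cont (h x₀)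

theorem JFamOn.of_sub {S : Set P} {J : P → End d X} (h : JFam (P := S) (fun p : S => J p.1)) :
    JFamOn S J := fun x₀ => cont_sub (h x₀)

/-- taming is an open condition in families -/
theorem tames_nhds' [IsManifold (𝓡 d) ∞ X] [CompactSpace X] {Ω : P → Form d X 2}
    {J : P → End d X} {N : Set P} (hN : IsOpen N) (hJ : JFamOn N J)
    (hΩ : CFam N Ω) {p₀ : P} (hp : p₀ ∈ N) (ht : ∀ x, TamesAt (Ω p₀) (J p₀) x) :
    ∀ᶠ p in 𝓝 p₀, ∀ x, TamesAt (Ω p) (J p) x := by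
  have h1 := tames_nhds (P := N) (Ω := fun p : N => Ω p.1) (J := fun p : N => J p.1)
    (JFamOn.sub hJ) (N := univ) (CFam.sub hΩ) (p₀ := ⟨p₀, hp⟩) univ_mem ht
  have h2 := hN.isOpenEmbedding_subtypeVal.map_nhds_eq ⟨p₀, hp⟩
  rw [← h2, eventually_map]
  exact h1

theorem extend_acs [IsManifold (𝓡 d) ∞ X] [CompactSpace X] [T2Space X] [CompactSpace P]
    [T2Space P] {Q N : Set P} (hQ : IsClosed Q) (hN : IsOpen N) (hQN : Q ⊆ N) {r : P → P}
    (hr : ContinuousOn r N) (hrQ : ∀ p ∈ N, r p ∈ Q) (hrid : ∀ q ∈ Q, r q = q)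
    {Ω : P → Form d X 2} (hΩ : CFam univ Ω)
    (hnd : ∀ (p : P) (x : X) (v : TangentSpace (𝓡 d) x), (∀ u, Ω p x ![v, u] = 0) → v = 0)
    {J : P → End d X} (hJ : JFamOn Q J)
    (hsq : ∀ p ∈ Q, ∀ (x : X) (v : TangentSpace (𝓡 d) x), J p x (J p x v) = -v)
    (ht : ∀ p ∈ Q, ∀ x, TamesAt (Ω p) (J p) x) :
    ∃ J' : P → End d X, (∀ (p : P) (x : X) (v : TangentSpace (𝓡 d) x), J' p x (J' p x v) = -v) ∧
      JFam J' ∧ (∀ p x, TamesAt (Ω p) (J' p) x) ∧ ∀ q ∈ Q, J' q = J q := by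
  have hJN : JFamOn N (fun p => J (r p)) := by
    intro x₀
    have h2 : ContinuousOn (fun q : P × E d => (r q.1, q.2)) (N ×ˢ (chartAt (E d) x₀).target) :=
      (hr.comp continuousOn_fst fun q hq => hq.1).prodMk continuousOn_snd
    exact (hJ x₀).comp h2 fun q hq => ⟨hrQ _ hq.1, hq.2⟩
  have hΩN : CFam N Ω := fun U φ hU hφ j =>
    (hΩ U φ hU hφ j).mono (prod_mono (subset_univ _) le_rfl)
  obtain ⟨N₁, hN₁⟩ : ∃ N₁ : Set P, N₁ = N ∩ interior {p | ∀ x, TamesAt (Ω p) (J (r p)) x} :=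
    ⟨_, rfl⟩
  have hN₁o : IsOpen N₁ := by
    rw [hN₁]
    exact hN.inter isOpen_interior
  have hN₁N : N₁ ⊆ N := by
    rw [hN₁]
    exact inter_subset_left
  have hN₁t : ∀ p ∈ N₁, ∀ x, TamesAt (Ω p) (J (r p)) x := by
    intro p hp
    rw [hN₁] at hp
    have h1 : interior {p | ∀ x, TamesAt (Ω p) (J (r p)) x} ⊆
      {p | ∀ x, TamesAt (Ω p) (J (r p)) x} := interior_subset
    exact h1 hp.2
  have hQN₁ : Q ⊆ N₁ := by
    intro q hq
    rw [hN₁]
    refine ⟨hQN hq, mem_interior_iff_mem_nhds.2 ?_⟩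
    refine tames_nhds' hN hJN hΩN (hQN hq) ?_
    rw [hrid q hq]
    exact ht q hq
  obtain ⟨f, hf0, hf1, hf2⟩ := exists_continuous_zero_one_of_isClosed hN₁o.isClosed_compl hQ
    (disjoint_left.2 fun p hp hq => hp (hQN₁ hq))
  have hχN : ∀ p, p ∉ N₁ → ∀ᶠ p' in 𝓝 p, max (2 * f p' - 1) 0 = 0 := by
    intro p hp
    have h5 : f p = 0 := hf0 hp
    have h6 : ∀ᶠ p' in 𝓝 p, f p' < 1 / 2 :=
      f.continuous.continuousAt.eventually (gt_mem_nhds (by rw [h5]; norm_num))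
    filter_upwards [h6] with p' hp'
    exact max_eq_right (by linarith)
  have hχc : Continuous fun p => max (2 * f p - 1) 0 := by fun_prop
  obtain ⟨J', h1, h2, h3, h4⟩ := extendJ (χ := fun p => max (2 * f p - 1) 0) hΩ hnd hN₁o
    (J₁ := fun p => J (r p)) (fun x₀ => (hJN x₀).mono (prod_mono hN₁N le_rfl))
    (fun p hp => hsq _ (hrQ p (hN₁N hp))) hN₁t hχc (fun p => le_max_right _ _)
    (fun p => max_le (by linarith [(hf2 p).2]) zero_le_one) hχN
  refine ⟨J', h1, h2, h3, fun q hq => ?_⟩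
  have h5 : max (2 * f q - 1) 0 = 1 := by
    have h6 : f q = 1 := hf1 hq
    rw [h6]
    norm_num
  funext x
  refine ContinuousLinearMap.ext fun v => ?_
  have h7 := h4 q h5 x v
  rw [hrid q hq] at h7
  exact h7

end Pool.Agent.U896.EQ
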