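import Pool.Agent.U896.EQ.PubEQ
import Pool.Agent.U896.EQ.Q4
import Pool.Agent.U896.EQ.Q5
import Pool.Agent.U896.MF.FinalMF

/-!
# Families of symplectic forms and families of weakly tamed almost complex structures
-/

set_option autoImplicit false

open Set Filter Topology MeasureTheory
open scoped Manifold ContDiff

noncomputable section

namespace Pool.Agent.U896.EQP

open Pool.Agent.Y501
open Pool.Agent.Y501.SYP Pool.Agent.U896.SEP Pool.Agent.U896.SWP Pool.Agent.U896.SVP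
  Pool.Agent.U896.SCP Pool.Agent.U896.MFP

section

variable {d : ℕ} {X : Type} [TopologicalSpace X] [ChartedSpace (ES d) X] {P : Type}
  [TopologicalSpace P]

attribute [local instance] cs mf

theorem locint_of {k : ℕ} {σ : Form (ES d) X k} [IsManifold 𝓘(ℝ, ES d) ∞ X] (h : IsSmooth σ)
    (z : X) : LocallyIntegrableOn (pb (chartAt (ES d) z).symm σ) (chartAt (ES d) z).target
      (leb d) := by
  have h1 : ContDiffOn ℝ ∞ (SY.pb (d := d) (X := X) (chartAt (SY.E d) z).symm σ)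
      (chartAt (SY.E d) z).target :=
    ((smooth_iff σ).1 h) _ _ (chartAt (SY.E d) z).open_target contMDiffOn_chart_symm
  have h2 : LocallyIntegrableOn (SY.pb (d := d) (X := X) (chartAt (SY.E d) z).symm σ)
      (chartAt (SY.E d) z).target (volume : Measure (SY.E d)) :=
    h1.continuousOn.locallyIntegrableOn (chartAt (SY.E d) z).open_target.measurableSet
  exact h2

/-- a smooth form in the class which tames `J` -/
theorem weakly_of [IsManifold 𝓘(ℝ, ES d) ∞ X] {σ₀ w : Form (ES d) X 2} (hσ₀ : IsSmooth σ₀)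
    (hw : IsSmooth w) (hc : Cohomologous w σ₀) {J : End (ES d) X} (hJ : IsAlmostComplex J)
    (ht : ∀ x, TamesAt w J x) : WeaklyTamedIn σ₀ J := by
  obtain ⟨α, ρ, h1, h2, h3, rfl⟩ := hc
  have hU : ∀ x, UnifTamesNear (addF σ₀ ρ) J ∅ x := by
    intro x
    obtain ⟨c, hc, h4⟩ := EQ.unif_of_tames (d := d) (X := X) ((smooth_iff _).1 hw) (ac_of J hJ) x
      (ht x)
    exact ⟨c, hc, h4.mono fun p hp _ v => hp v⟩
  have hcrit : Crit (addF σ₀ ρ) J ∅ = ∅ := by
    rw [eq_empty_iff_forall_notMem]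
    exact fun x hx => hx (hU x)
  refine ⟨∅, α, addF σ₀ ρ, fun z => ?_, locint_of h1, locint_of hw, ?_, fun x _ v => ?_,
    fun z hz => ?_, Or.inl fun x => ?_⟩
  · simp
  · intro z g g1 g2 g3 u v
    have h4 := EQ.weak_of_smooth (d := d) (chartAt (SY.E d) z).open_target
      (b := SY.pb (d := d) (X := X) (chartAt (SY.E d) z).symm α)
      (s := SY.pb (d := d) (X := X) (chartAt (SY.E d) z).symm ρ)
      (((smooth_iff α).1 h1) _ _ (chartAt (SY.E d) z).open_target contMDiffOn_chart_symm)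
      (fun p hp => ((isD_iff α ρ).1 h3) _ _ (chartAt (SY.E d) z).open_target
        contMDiffOn_chart_symm p hp) g1 g2 g3 u v
    refine Eq.trans ?_ h4
    refine integral_congr_ae (Eventually.of_forall fun q => ?_)
    have h5 : pb (chartAt (ES d) z).symm (addF σ₀ ρ) q ![u, v] -
        pb (chartAt (ES d) z).symm σ₀ q ![u, v] =
        SY.pb (d := d) (X := X) (chartAt (SY.E d) z).symm ρ q ![u, v] := by
      have h6 : pb (chartAt (ES d) z).symm (addF σ₀ ρ) q ![u, v] =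
          pb (chartAt (ES d) z).symm σ₀ q ![u, v] + pb (chartAt (ES d) z).symm ρ q ![u, v] := rfl
      rw [h6, add_sub_cancel_left]
      rfl
    show g q * (pb (chartAt (ES d) z).symm (addF σ₀ ρ) q ![u, v] -
        pb (chartAt (ES d) z).symm σ₀ q ![u, v]) + _ - _ = _
    rw [h5]
    rfl
  · by_cases hv : v = 0
    · rw [hv]
      have h4 : qd (addF σ₀ ρ) J x 0 = 0 := by
        show (addF σ₀ ρ) x ![0, J x 0] = 0
        exact ContinuousMultilinearMap.map_coord_zero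
          ((addF σ₀ ρ) x).toContinuousMultilinearMap 0 rfl
      rw [h4]
    · exact (ht x v hv).le
  · rw [hcrit] at hz
    exact absurd hz (notMem_empty z)
  · obtain ⟨c, hc, h4⟩ := EQ.ecc_of_tames (d := d) (X := X) ((smooth_iff _).1 hw) (ac_of J hJ) x
      (ht x)
    refine ⟨c, hc, 0, h4.mono fun p hp _ v => ?_⟩
    rw [sub_zero]
    exact hp v

theorem family_sub {σ₀ : Form (ES d) X 2} {Q : Set P} {η : P → Form (ES d) X 2}
    (h : FamilyInClass (P := Q) σ₀ univ (fun q : Q => η q.1)) : FamilyInClass σ₀ Q η :=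
  ⟨fun q hq => h.1 ⟨q, hq⟩ (mem_univ _),
    fun U φ hφ j => EQ.cont_sub (d := d) (h.2 U φ hφ j)⟩

theorem equivalence [IsManifold 𝓘(ℝ, ES d) ∞ X] [CompactSpace X] [T2Space X] (hd : 0 < d)
    [CompactSpace P] [T2Space P] (Q N : Set P) (hQ : IsClosed Q) (hN : IsOpen N) (hQN : Q ⊆ N)
    (r : P → P) (hr : ContinuousOn r N) (hrQ : ∀ p ∈ N, r p ∈ Q) (hrid : ∀ q ∈ Q, r q = q)
    (σ₀ : Form (ES d) X 2) (hσ₀ : IsSmooth σ₀) (hσ₀c : IsClosedForm σ₀) :
    (∀ η : P → Form (ES d) X 2, FamilyInClass σ₀ Q η → (∀ q ∈ Q, NondegForm (η q)) →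
      ∃ Ω : P → Form (ES d) X 2, FamilyInClass σ₀ univ Ω ∧ (∀ p, NondegForm (Ω p)) ∧
        ∀ q ∈ Q, Ω q = η q) ↔
    (∀ J : P → End (ES d) X, ContinuousACSOn Q J → (∀ q ∈ Q, WeaklyTamedIn σ₀ (J q)) →
      ∃ J' : P → End (ES d) X, ContinuousACSOn univ J' ∧ (∀ p, WeaklyTamedIn σ₀ (J' p)) ∧
        ∀ q ∈ Q, J' q = J q) := by
  classical
  haveI hQc : CompactSpace Q := isCompact_iff_compactSpace.1 hQ.isCompact
  constructor
  · intro hA J hJ hJw
    -- a family of forms over `Q` taming `J`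
    have hJQ : ContinuousACS (P := Q) (fun q : Q => J q.1) :=
      ⟨fun q => hJ.1 q.1 q.2, fun x₀ v => EQ.sub_cont (d := d) (hJ.2 x₀ v)⟩
    obtain ⟨Ω', o1, o2, -, -⟩ := familiesMF (P := Q) hd ∅ ∅ isClosed_empty isOpen_empty
      (empty_subset _) id (continuousOn_empty _) (fun p hp => absurd hp (notMem_empty p))
      (fun p hp => absurd hp (notMem_empty p)) (fun q : Q => J q.1) hJQ σ₀ hσ₀ hσ₀c
      (fun _ => σ₀) ⟨fun q hq => absurd hq (notMem_empty q), fun U φ hφ j => by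
        rw [empty_prod]
        exact continuousOn_empty _⟩ (fun q hq => absurd hq (notMem_empty q))
      (fun q _ => hJw q.1 q.2)
    obtain ⟨η, hη⟩ : ∃ η : P → Form (ES d) X 2, ∀ (q : P) (hq : q ∈ Q), η q = Ω' ⟨q, hq⟩ :=
      ⟨fun p => if hp : p ∈ Q then Ω' ⟨p, hp⟩ else 0, fun q hq => by
        simp only [dif_pos hq]⟩
    have hηQ : (fun q : Q => η q.1) = Ω' := funext fun q => hη q.1 q.2
    have hηF : FamilyInClass σ₀ Q η := family_sub (by rw [hηQ]; exact o1)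
    have hηt : ∀ q ∈ Q, ∀ x, TamesAt (η q) (J q) x := fun q hq x => by
      rw [hη q hq]
      exact o2 ⟨q, hq⟩ x
    have hηn : ∀ q ∈ Q, NondegForm (η q) := by
      intro q hq x v hv
      by_contra h0
      have h1 := hηt q hq x v h0
      have h2 : qd (η q) (J q) x v = 0 := hv _
      rw [h2] at h1
      exact lt_irrefl _ h1
    obtain ⟨Ω, k1, k2, k3⟩ := hA η hηF hηn
    obtain ⟨J', m1, m2, m3, m4⟩ := EQ.extend_acs (d := d) (X := X) hQ hN hQN hr hrQ hrid
      (Ω := Ω) (fun U φ hU hφ => k1.2 U φ ⟨hU, hφ⟩) k2 (J := J) (fun x₀ => by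
        rw [continuousOn_clm_apply]
        exact fun v => hJ.2 x₀ v) (fun p hp => (hJ.1 p hp).sq) (fun p hp x => by
        rw [k3 p hp]
        exact hηt p hp x)
    have hac : ∀ p, IsAlmostComplex (J' p) := by
      intro p
      refine ⟨m1 p, fun x₀ v => ?_⟩
      have h1 := m2 x₀
      rw [continuousOn_clm_apply] at h1
      exact (h1 v).comp (f := fun u : ES d => (p, u)) (by fun_prop) fun u hu => ⟨mem_univ _, hu⟩
    refine ⟨J', ⟨fun p _ => hac p, fun x₀ v => ?_⟩, fun p => ?_, m4⟩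
    · have h1 := m2 x₀
      rw [continuousOn_clm_apply] at h1
      exact h1 v
    · obtain ⟨h1, -, h2⟩ := k1.1 p (mem_univ p)
      exact weakly_of hσ₀ h1 h2 (hac p) (m3 p)
  · intro hB η hη hηn
    obtain ⟨J₁, j1, j2, j3⟩ := Pool.Agent.Q130.SF.exists_J (d := d) (X := X) (P := Q)
      (Ω := fun q : Q => η q.1) (fun U φ hU hφ j => EQ.sub_cont (d := d) (hη.2 U φ ⟨hU, hφ⟩ j))
      (fun q => hηn q.1 q.2)
    obtain ⟨J, hJ⟩ : ∃ J : P → End (ES d) X, ∀ (q : P) (hq : q ∈ Q), J q = J₁ ⟨q, hq⟩ :=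
      ⟨fun p => if hp : p ∈ Q then J₁ ⟨p, hp⟩ else 0, fun q hq => dif_pos hq⟩
    have hJQ : (fun q : Q => J q.1) = J₁ := funext fun q => hJ q.1 q.2
    have hJc : ∀ (x₀ : X) (v : ES d), ContinuousOn
        (fun q : P × ES d => inChart (J q.1) x₀ q.2 v) (Q ×ˢ (chartAt (ES d) x₀).target) := by
      intro x₀ v
      refine EQ.cont_sub (d := d) ?_
      have h1 := j2 x₀
      rw [continuousOn_clm_apply, ← hJQ] at h1
      exact h1 v
    have hac : ∀ q ∈ Q, IsAlmostComplex (J q) := by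
      intro q hq
      refine ⟨fun x v => ?_, fun x₀ v => ?_⟩
      · rw [hJ q hq]
        exact j1 ⟨q, hq⟩ x v
      · exact (hJc x₀ v).comp (f := fun u : ES d => (q, u)) (by fun_prop) fun u hu => ⟨hq, hu⟩
    have hJt : ∀ q ∈ Q, ∀ x, TamesAt (η q) (J q) x := fun q hq x => by
      rw [hJ q hq]
      exact j3 ⟨q, hq⟩ x
    obtain ⟨J', m1, m2, m3⟩ := hB J ⟨hac, hJc⟩ fun q hq => by
      obtain ⟨h1, -, h2⟩ := hη.1 q hq
      exact weakly_of hσ₀ h1 h2 (hac q hq) (hJt q hq)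
    obtain ⟨Ω, k1, -, k3, k4⟩ := familiesMF hd Q N hQ hN hQN r hr hrQ hrid J'
      ⟨fun p => m1.1 p (mem_univ p), m1.2⟩ σ₀ hσ₀ hσ₀c η hη (fun q hq x => by
        rw [m3 q hq]
        exact hJt q hq x) (fun p _ => m2 p)
    exact ⟨Ω, k1, k3, k4⟩

end

end Pool.Agent.U896.EQP
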