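import Pool.Agent.U896.MF.PubMF

/-!
Families of almost complex structures over a subset: the definition used in the statement.
-/

set_option autoImplicit false

open Set Filter Topology MeasureTheory
open scoped Manifold ContDiff

noncomputable section

namespace Pool.Agent.U896.EQP

open Pool.Agent.Y501.SYP

variable {d : ℕ} {X : Type} [TopologicalSpace X] [ChartedSpace (ES d) X] {P : Type}
  [TopologicalSpace P]

/-- the almost complex structures `J_p`, `p ∈ Q`, are a continuous family (in the `C⁰` topology) -/
def ContinuousACSOn (Q : Set P) (J : P → End (ES d) X) : Prop :=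
  (∀ p ∈ Q, IsAlmostComplex (J p)) ∧ ∀ (x₀ : X) (v : ES d),
    ContinuousOn (fun q : P × ES d => inChart (J q.1) x₀ q.2 v)
      (Q ×ˢ (chartAt (ES d) x₀).target)

end Pool.Agent.U896.EQP
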