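import Pool.Agent.Q130.SF.LinC

/-!
# Polar decompositions and tamed complex structures: linear algebra
-/

set_option autoImplicit false

open Set Filter Topology Metric Function
open scoped RealInnerProductSpace

noncomputable section

namespace Pool.Agent.U896.EQ

open Pool.Agent.Q130.SF

/-- the polar decomposition in terms of square roots -/
theorem pol_form {n : ℕ} {w : F n → F n → ℝ} (h : Dat w fun v u => ⟪v, u⟫) {A : F n →ₗ[ℝ] F n}
    (hA : ∀ v u, ⟪A v, u⟫ = w v u) {K : F n →L[ℝ] F n} (hK : Pol w (fun v u => ⟪v, u⟫) K) :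
    ∃ R : F n →ₗ[ℝ] F n, (∀ v u, ⟪R v, u⟫ = ⟪v, R u⟫) ∧ (∀ v, v ≠ 0 → 0 < ⟪R v, v⟫) ∧
      (∀ B : F n →ₗ[ℝ] F n, (∀ v, B (A (A v)) = A (A (B v))) → ∀ v, B (R v) = R (B v)) ∧
      ∀ v, K v = A (R v) := by
  have hAA : ∀ v u, ⟪A v, u⟫ = -⟪v, A u⟫ := fun v u => by
    rw [hA, h.walt, ← hA, real_inner_comm]
  obtain ⟨T, hT⟩ : ∃ T : F n →ₗ[ℝ] F n, ∀ v, T v = -A (A v) := ⟨-(A ∘ₗ A), fun _ => rfl⟩
  have hTA : ∀ v u, ⟪T v, u⟫ = ⟪A v, A u⟫ := fun v u => by
    rw [hT, inner_neg_left, hAA, neg_neg]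
  have hA0 : ∀ v, A v = 0 → v = 0 := fun v hv => h.wnd v fun u => by
    rw [← hA, hv, inner_zero_left]
  obtain ⟨R, r1, r2, r3, r4⟩ := sqrtinv T (fun v u => by
      rw [hTA, real_inner_comm, ← hTA, real_inner_comm])
    (fun v hv => by
      rw [hTA]
      exact real_inner_self_pos.2 fun h0 => hv (hA0 v h0))
  have hAR : ∀ v, A (R v) = R (A v) := r4 A fun v => by
    rw [hT, hT, map_neg]
  have hTR : ∀ v, T (R v) = R (T v) := r4 T fun v => rfl
  have key : ∀ v u, w v (A (R u)) = ⟪R (T v), u⟫ := by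
    intro v u
    rw [← hA, ← hTA, r1]
  have hP : Pol w (fun v u => ⟪v, u⟫) (LinearMap.toContinuousLinearMap (A ∘ₗ R)) := by
    refine ⟨fun v => ?_, fun v u => ?_, fun v u => ?_, fun v hv => ?_⟩
    · show A (R (A (R v))) = -v
      rw [← hAR (R v)]
      have h1 : A (A (R (R v))) = -T (R (R v)) := by rw [hT, neg_neg]
      rw [h1, hTR, hTR, r3]
    · show ⟪A (R v), A (R u)⟫ = ⟪v, u⟫
      rw [← hTA, hTR, ← r1, r3]
    · show w v (A (R u)) = w u (A (R v))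
      have hTs : ∀ v u, ⟪T v, u⟫ = ⟪v, T u⟫ := fun v u => by
        rw [hTA, real_inner_comm, ← hTA, real_inner_comm]
      rw [key, key, r1, hTs, hTR, real_inner_comm]
    · show 0 < w v (A (R v))
      rw [key]
      obtain ⟨u, hu⟩ : ∃ u, u = R (T v) := ⟨_, rfl⟩
      have h1 : R u = v := by rw [hu, r3]
      have h2 : u ≠ 0 := by
        rintro rfl
        rw [map_zero] at h1
        exact hv h1.symm
      rw [← hu]
      have h3 := r2 u h2
      rwa [h1, real_inner_comm] at h3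
  refine ⟨R, r1, r2, fun B hB => r4 B fun v => ?_, fun v => ?_⟩
  · rw [hT, hT, map_neg, hB]
  · rw [unique_std h hK hP]
    rfl

/-- the antilinear part is nonnegative on the polar decomposition -/
theorem anti_nonneg {n : ℕ} {J T A R : F n →ₗ[ℝ] F n} {c : ℝ} (hc : 0 ≤ c)
    (hJ : ∀ v, J (J v) = -v) (hJo : ∀ v u, ⟪J v, J u⟫ = ⟪v, u⟫)
    (hT : ∀ v u, ⟪T v, u⟫ = -⟪v, T u⟫) (hJT : ∀ v, J (T v) = -T (J v))
    (hA : ∀ v, A v = J v + c • T v) (hR : ∀ v u, ⟪R v, u⟫ = ⟪v, R u⟫)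
    (hR0 : ∀ v, v ≠ 0 → 0 < ⟪R v, v⟫)
    (hRB : ∀ B : F n →ₗ[ℝ] F n, (∀ v, B (A (A v)) = A (A (B v))) → ∀ v, B (R v) = R (B v))
    (v : F n) : 0 ≤ ⟪T v, A (R v)⟫ := by
  have hAA : ∀ v, A (A v) = -v + (c * c) • T (T v) := by
    intro v
    rw [hA (A v), hA v, map_add, map_add, map_smul, map_smul, hJ, hJT, smul_add, smul_smul,
      smul_neg]
    abel
  have hJs : ∀ v u, ⟪J v, u⟫ = -⟪v, J u⟫ := by
    intro v u
    have h1 := hJo (J v) u
    rw [hJ, inner_neg_left] at h1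
    linarith
  have hRT : ∀ v, T (R v) = R (T v) := by
    refine hRB T fun v => ?_
    rw [hAA, hAA, map_add, map_neg, map_smul]
  have hRJ : ∀ v, J (R v) = R (J v) := by
    refine hRB J fun v => ?_
    rw [hAA, hAA, map_add, map_neg, map_smul, hJT, hJT, map_neg, neg_neg]
  rw [hA (R v), inner_add_right, inner_smul_right]
  have h1 : ⟪T v, J (R v)⟫ = 0 := by
    have h2 : ⟪T v, J (R v)⟫ = -⟪T v, J (R v)⟫ := by
      calc ⟪T v, J (R v)⟫ = ⟪T v, R (J v)⟫ := by rw [hRJ]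
        _ = ⟪R (T v), J v⟫ := by rw [hR]
        _ = ⟪T (R v), J v⟫ := by rw [hRT]
        _ = -⟪R v, T (J v)⟫ := hT _ _
        _ = ⟪R v, J (T v)⟫ := by rw [hJT, inner_neg_right]
        _ = ⟪J (T v), R v⟫ := real_inner_comm _ _
        _ = -⟪T v, J (R v)⟫ := hJs _ _
    linarith
  have h3 : 0 ≤ ⟪T v, T (R v)⟫ := by
    rw [hRT, ← hR]
    by_cases h0 : T v = 0
    · rw [h0, inner_zero_right]
    · exact (hR0 _ h0).le
  rw [h1, zero_add]
  exact mul_nonneg hc h3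

/-- if `J` is tamed by `ζ`, then so are the polar decompositions of the forms between `ζ` and its
`J`-invariant part, with respect to the metric defined by `J` and `ζ` -/
theorem tame_pol {n : ℕ} {ζ : F n → F n → ℝ} (hadd : ∀ v v' u, ζ (v + v') u = ζ v u + ζ v' u)
    (hsmul : ∀ (c : ℝ) v u, ζ (c • v) u = c * ζ v u) (halt : ∀ v u, ζ v u = -ζ u v)
    {J : F n →L[ℝ] F n} (hJ : ∀ v, J (J v) = -v) {s : ℝ} (hs1 : s ≤ 1) (hs0 : 0 ≤ s)
    {w g : F n → F n → ℝ} (hd : Dat w g)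
    (hw : ∀ v u, w v u = (1 - s) * ζ v u + s * ((ζ v u + ζ (J v) (J u)) / 2))
    (hg : ∀ v u, g v u = (ζ v (J u) + ζ u (J v)) / 2) {K : F n →L[ℝ] F n} (hK : Pol w g K)
    (v : F n) (hv : v ≠ 0) : 0 < ζ v (K v) := by
  have hadd' : ∀ v u u', ζ v (u + u') = ζ v u + ζ v u' := fun v u u' => by
    rw [halt, hadd, neg_add, ← halt, ← halt]
  have hsmul' : ∀ (c : ℝ) v u, ζ v (c • u) = c * ζ v u := fun c v u => by
    rw [halt, hsmul, halt u v]
    ring
  have hneg : ∀ v u, ζ (-v) u = -ζ v u := fun v u => by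
    rw [← neg_one_smul ℝ v, hsmul]
    ring
  have hneg' : ∀ v u, ζ v (-u) = -ζ v u := fun v u => by
    rw [← neg_one_smul ℝ u, hsmul']
    ring
  obtain ⟨τ, hτ⟩ : ∃ τ : F n → F n → ℝ, ∀ v u, τ v u = (ζ v u - ζ (J v) (J u)) / 2 :=
    ⟨_, fun _ _ => rfl⟩
  have hζw : ∀ v u, ζ v u = w v u + s * τ v u := fun v u => by
    rw [hw, hτ]
    ring
  suffices h0 : 0 ≤ τ v (K v) by
    rw [hζw]
    have := hK.pos v hv
    nlinarith [mul_nonneg hs0 h0]
  obtain ⟨L, hL⟩ := exists_frame hd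
  -- everything in the frame
  obtain ⟨J', hJ'⟩ : ∃ J' : F n →ₗ[ℝ] F n, ∀ v, J' v = L.symm (J (L v)) :=
    ⟨(L.symm : F n →ₗ[ℝ] F n) ∘ₗ ((J : F n →ₗ[ℝ] F n) ∘ₗ (L : F n →ₗ[ℝ] F n)), fun _ => rfl⟩
  have hLJ : ∀ v, L (J' v) = J (L v) := fun v => by rw [hJ', L.apply_symm_apply]
  obtain ⟨T, hT⟩ := riesz (fun v u => τ (L v) (L u)) (fun v v' u => by
      simp only [hτ, map_add, hadd]
      ring) (fun c v u => by
      simp only [hτ, map_smul, hsmul]
      ring) (fun v u u' => by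
      simp only [hτ, map_add, hadd']
      ring) (fun c v u => by
      simp only [hτ, map_smul, hsmul']
      ring)
  have hgJ : ∀ v u, g (J v) u = (ζ v u + ζ (J v) (J u)) / 2 := fun v u => by
    rw [hg, hJ, hneg', halt u v]
    ring
  have hd1 : Dat (fun v u => w (L v) (L u)) fun v u => ⟪v, u⟫ := by
    have h2 := hd.transport L
    simpa only [hL] using h2
  have hK1 : Pol (fun v u => w (L v) (L u)) (fun v u => ⟪v, u⟫)
      ((L.symm : F n →L[ℝ] F n).comp (K.comp (L : F n →L[ℝ] F n))) := by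
    have h3 := Pol.transport (w := fun v u => w (L v) (L u)) (g := fun v u => g (L v) (L u))
      (J := K) L.symm (by simpa only [L.apply_symm_apply] using hK)
    simpa only [hL, ContinuousLinearEquiv.symm_symm] using h3
  have hJi : ∀ v u, ⟪J' v, u⟫ = (ζ (L v) (L u) + ζ (J (L v)) (J (L u))) / 2 := fun v u => by
    rw [← hL, hLJ, hgJ]
  have hA : ∀ v u, ⟪(J' + (1 - s) • T) v, u⟫ = w (L v) (L u) := by
    intro v u
    have h1 : (J' + (1 - s) • T) v = J' v + (1 - s) • T v := rfl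
    rw [h1, inner_add_left, inner_smul_left, hT, hJi, hw, hτ]
    simp only [conj_trivial]
    ring
  obtain ⟨R, r1, r2, r3, r4⟩ := pol_form hd1 hA hK1
  have hJJ : ∀ v, J' (J' v) = -v := fun v => by
    rw [hJ' (J' v), hLJ, hJ, map_neg, L.symm_apply_apply]
  have h1 := anti_nonneg (J := J') (T := T) (A := J' + (1 - s) • T) (R := R) (c := 1 - s)
    (by linarith) hJJ (fun v u => ?_) (fun v u => ?_) (fun v => ?_) (fun v => rfl) r1 r2 r3
    (L.symm v)
  · have h2 : (J' + (1 - s) • T) (R (L.symm v)) = L.symm (K v) := by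
      rw [← r4]
      show L.symm (K (L (L.symm v))) = _
      rw [L.apply_symm_apply]
    rw [h2, hT, L.apply_symm_apply, L.apply_symm_apply] at h1
    exact h1
  · rw [← hL, hLJ, hLJ, hgJ, hJ, ← hL, hg, hneg', halt (J (L v)) (L u)]
    ring
  · rw [hT, real_inner_comm, hT, hτ, hτ, halt (L u), halt (J (L u))]
    ring
  · refine ext_inner_right ℝ fun u => ?_
    have h2 : ⟪J' (T v), u⟫ = -⟪T v, J' u⟫ := by
      have h3 : ∀ a b, ⟪J' a, b⟫ = -⟪a, J' b⟫ := by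
        intro a b
        rw [real_inner_comm (J' b) a, hJi, hJi, halt (L b), halt (J (L b))]
        ring
      exact h3 _ _
    rw [h2, inner_neg_left, hT, hT, hLJ, hLJ, hτ, hτ, hJ, hJ, hneg, hneg']
    ring

end Pool.Agent.U896.EQ
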