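import Pool.Agent.Q130.SF.Acs
import Pool.Agent.U896.EQ.Q1

/-!
# Families of almost complex structures from families of two-forms and metrics
-/

set_option autoImplicit false

open Set Filter Topology Metric Function
open scoped Manifold ContDiff RealInnerProductSpace

noncomputable section

namespace Pool.Agent.U896.EQ

open Pool.Agent.Y501.SY Pool.Agent.Y455.SY Pool.Agent.Q130.SF

variable {d : ℕ}

theorem exists_JG {X : Type} [TopologicalSpace X] [ChartedSpace (E d) X] [IsManifold (𝓡 d) ∞ X]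
    {P : Type} [TopologicalSpace P] {W G : P → X → F d → F d → ℝ}
    (hdat : ∀ p x, Dat (n := d) (W p x) (G p x))
    (hW : ∀ (x₀ : X) (p : P) (u : E d), u ∈ (chartAt (E d) x₀).target → ∀ v v' : F d,
      ContinuousAt (fun q : (P × E d) × F d × F d => W q.1.1 ((chartAt (E d) x₀).symm q.1.2)
        (A x₀ q.1.2 q.2.1) (A x₀ q.1.2 q.2.2)) ((p, u), v, v'))
    (hG : ∀ (x₀ : X) (p : P) (u : E d), u ∈ (chartAt (E d) x₀).target → ∀ v v' : F d,
      ContinuousAt (fun q : (P × E d) × F d × F d => G q.1.1 ((chartAt (E d) x₀).symm q.1.2)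
        (A x₀ q.1.2 q.2.1) (A x₀ q.1.2 q.2.2)) ((p, u), v, v')) :
    ∃ J : P → End d X, JFam J ∧ ∀ p x, Pol (n := d) (W p x) (G p x) (J p x) := by
  have hex : ∀ (p : P) (x : X), ∃ J : F d →L[ℝ] F d, Pol (W p x) (G p x) J :=
    fun p x => Pol.exists (hdat p x)
  choose J hJ using hex
  refine ⟨fun p x => J p x, fun x₀ => ?_, hJ⟩
  rintro ⟨p, u⟩ ⟨-, hu⟩
  refine ContinuousAt.continuousWithinAt ?_
  change u ∈ (chartAt (E d) x₀).target at hu
  have hnt : ∀ᶠ q : P × E d in 𝓝 (p, u), q.2 ∈ (chartAt (E d) x₀).target :=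
    (continuousAt_snd (p := (p, u))).eventually ((chartAt (E d) x₀).open_target.mem_nhds hu)
  have hL : ∀ q : P × E d, q.2 ∈ (chartAt (E d) x₀).target →
      ∃ L : F d ≃L[ℝ] F d, (∀ v, L v = A x₀ q.2 v) ∧ ∀ v, L.symm v = B x₀ q.2 v := by
    intro q hq
    exact ⟨ContinuousLinearEquiv.equivOfInverse (A x₀ q.2) (B x₀ q.2) (BA x₀ hq)
      (AB x₀ hq), fun v => rfl, fun v => rfl⟩
  refine Pol.continuousAt (n := d) (Z := P × E d) (z₀ := (p, u))
    (w := fun q v v' => W q.1 ((chartAt (E d) x₀).symm q.2) (A x₀ q.2 v) (A x₀ q.2 v'))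
    (g := fun q v v' => G q.1 ((chartAt (E d) x₀).symm q.2) (A x₀ q.2 v) (A x₀ q.2 v'))
    (J := fun q => inChart (fun x => J q.1 x) x₀ q.2) (hW x₀ p u hu) (hG x₀ p u hu) ?_ ?_
  · filter_upwards [hnt] with q hq
    obtain ⟨L, hL1, hL2⟩ := hL q hq
    have h1 := (hdat q.1 ((chartAt (E d) x₀).symm q.2)).transport L
    simp only [hL1] at h1
    exact h1
  · filter_upwards [hnt] with q hq
    obtain ⟨L, hL1, hL2⟩ := hL q hq
    have h2 := Pol.back L (hJ q.1 ((chartAt (E d) x₀).symm q.2))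
    have h3 : ((L.symm : F d →L[ℝ] F d).comp
        ((J q.1 ((chartAt (E d) x₀).symm q.2)).comp (L : F d →L[ℝ] F d))) =
        inChart (fun x => J q.1 x) x₀ q.2 := by
      ext1 v
      show L.symm (J q.1 ((chartAt (E d) x₀).symm q.2) (L v)) = _
      rw [hL1, hL2]
      rfl
    rw [h3] at h2
    simp only [hL1] at h2
    exact h2

end Pool.Agent.U896.EQ
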