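import Pool.Agent.U896.EQ.Q2

/-!
# Extension of families of almost complex structures tamed by a family of nondegenerate forms
-/

set_option autoImplicit false

open Set Filter Topology Metric Function
open scoped Manifold ContDiff RealInnerProductSpace

noncomputable section

namespace Pool.Agent.U896.EQ

open Pool.Agent.Y501.SY Pool.Agent.Y455.SY Pool.Agent.Q130.SF

variable {d : ℕ} {X : Type} [TopologicalSpace X] [ChartedSpace (E d) X]
  {P : Type} [TopologicalSpace P]

/-- continuous families of endomorphisms over a subset -/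
def JFamOn (S : Set P) (J : P → End d X) : Prop :=
  ∀ x₀ : X, ContinuousOn (fun q : P × E d => inChart (J q.1) x₀ q.2)
    (S ×ˢ (chartAt (E d) x₀).target)

theorem alt2_add' (σ : (E d) [⋀^Fin 2]→L[ℝ] ℝ) (v u u' : E d) :
    σ ![v, u + u'] = σ ![v, u] + σ ![v, u'] := by
  rw [alt2_swap, alt2_add, neg_add, ← alt2_swap, ← alt2_swap]

theorem alt2_smul' (σ : (E d) [⋀^Fin 2]→L[ℝ] ℝ) (c : ℝ) (v u : E d) :
    σ ![v, c • u] = c * σ ![v, u] := by
  rw [alt2_swap, alt2_smul, alt2_swap σ u v]
  ring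

theorem extendJ [IsManifold (𝓡 d) ∞ X] [CompactSpace X] [T2Space X] {Ω : P → Form d X 2}
    (hΩ : CFam univ Ω)
    (hnd : ∀ (p : P) (x : X) (v : TangentSpace (𝓡 d) x), (∀ u, Ω p x ![v, u] = 0) → v = 0)
    {N : Set P} (hN : IsOpen N) {J₁ : P → End d X} (hJ₁ : JFamOn N J₁)
    (hsq : ∀ p ∈ N, ∀ (x : X) (v : TangentSpace (𝓡 d) x), J₁ p x (J₁ p x v) = -v)
    (ht : ∀ p ∈ N, ∀ x, TamesAt (Ω p) (J₁ p) x) {χ : P → ℝ} (hχ : Continuous χ)
    (hχ0 : ∀ p, 0 ≤ χ p) (hχ1 : ∀ p, χ p ≤ 1) (hχN : ∀ p, p ∉ N → ∀ᶠ p' in 𝓝 p, χ p' = 0) :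
    ∃ J : P → End d X, (∀ (p : P) (x : X) (v : TangentSpace (𝓡 d) x), J p x (J p x v) = -v) ∧
      JFam J ∧ (∀ p x, TamesAt (Ω p) (J p) x) ∧
      ∀ p, χ p = 1 → ∀ (x : X) (v : TangentSpace (𝓡 d) x), J p x v = J₁ p x v := by
  obtain ⟨n, e, he, -, hinj⟩ := exists_embedding_euclidean_of_compact (I := 𝓡 d) (M := X)
  obtain ⟨De, hDe⟩ : ∃ De : X → (E d →L[ℝ] F n), ∀ x, De x = mfderiv (𝓡 d) (𝓡 n) e x :=
    ⟨_, fun _ => rfl⟩
  have hDi : ∀ x, Injective (De x) := fun x => by
    rw [hDe]
    exact hinj x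
  obtain ⟨ζ, hζ⟩ : ∃ ζ : P → X → (E d) [⋀^Fin 2]→L[ℝ] ℝ, ∀ p x, ζ p x = Ω p x :=
    ⟨fun p x => Ω p x, fun _ _ => rfl⟩
  obtain ⟨K, hK⟩ : ∃ K : P → X → (F d →L[ℝ] F d), ∀ p x, K p x = J₁ p x :=
    ⟨fun p x => J₁ p x, fun _ _ => rfl⟩
  have hKK : ∀ p ∈ N, ∀ x (v : F d), K p x (K p x v) = -v := fun p hp x v => by
    rw [hK]
    exact hsq p hp x v
  have hKt : ∀ p ∈ N, ∀ x (v : F d), v ≠ 0 → 0 < ζ p x ![v, K p x v] := fun p hp x v hv => by
    rw [hK, hζ]
    exact ht p hp x v hv
  obtain ⟨s, hs⟩ : ∃ s : P → ℝ, ∀ p, s p = max (2 * χ p - 1) 0 := ⟨_, fun _ => rfl⟩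
  obtain ⟨t, htd⟩ : ∃ t : P → ℝ, ∀ p, t p = min (2 * χ p) 1 := ⟨_, fun _ => rfl⟩
  have hs0 : ∀ p, 0 ≤ s p := fun p => by rw [hs]; exact le_max_right _ _
  have hs1 : ∀ p, s p ≤ 1 := fun p => by
    rw [hs]
    exact max_le (by linarith [hχ1 p]) zero_le_one
  have ht0 : ∀ p, 0 ≤ t p := fun p => by
    rw [htd]
    exact le_min (by linarith [hχ0 p]) zero_le_one
  have ht1 : ∀ p, t p ≤ 1 := fun p => by rw [htd]; exact min_le_right _ _
  have hsc : Continuous s := by
    have h1 : s = fun p => max (2 * χ p - 1) 0 := funext hs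
    rw [h1]
    fun_prop
  have htc : Continuous t := by
    have h1 : t = fun p => min (2 * χ p) 1 := funext htd
    rw [h1]
    fun_prop
  have hst : ∀ p, χ p = 0 → s p = 0 ∧ t p = 0 := by
    intro p hp
    rw [hs, htd, hp]
    norm_num
  have hsN : ∀ p, p ∉ N → ∀ᶠ p' in 𝓝 p, s p' = 0 ∧ t p' = 0 := fun p hp =>
    (hχN p hp).mono fun p' h => hst p' h
  obtain ⟨W, hW⟩ : ∃ W : P → X → F d → F d → ℝ, ∀ p x v u, W p x v u =
      (1 - s p) * ζ p x ![v, u] + s p * ((ζ p x ![v, u] + ζ p x ![K p x v, K p x u]) / 2) :=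
    ⟨_, fun _ _ _ _ => rfl⟩
  obtain ⟨G, hG⟩ : ∃ G : P → X → F d → F d → ℝ, ∀ p x v u, G p x v u =
      (1 - t p) * ⟪De x v, De x u⟫ + t p * ((ζ p x ![v, K p x u] + ζ p x ![u, K p x v]) / 2) :=
    ⟨_, fun _ _ _ _ => rfl⟩
  have hWJ : ∀ p ∈ N, ∀ x v, W p x v (K p x v) = ζ p x ![v, K p x v] := by
    intro p hp x v
    rw [hW, hKK p hp]
    have h1 : ζ p x ![K p x v, -v] = ζ p x ![v, K p x v] := by
      rw [alt2_swap, ← neg_one_smul ℝ v, alt2_smul]
      ring
    rw [h1]
    ring
  have hdat : ∀ p x, Dat (n := d) (W p x) (G p x) := by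
    intro p x
    refine ⟨fun v v' u => ?_, fun c v u => ?_, fun v u => ?_, fun v hv => ?_, fun v v' u => ?_,
      fun c v u => ?_, fun v u => ?_, fun v hv => ?_⟩
    · simp only [hW, map_add, alt2_add]
      ring
    · simp only [hW, map_smul, alt2_smul]
      ring
    · rw [hW, hW, alt2_swap _ v u, alt2_swap _ (K p x v)]
      ring
    · by_cases hp : p ∈ N
      · by_contra h0
        have h1 := hKt p hp x v h0
        rw [← hWJ p hp x v, hv] at h1
        exact lt_irrefl _ h1
      · obtain ⟨h1, -⟩ := (hsN p hp).self_of_nhds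
        refine hnd p x v fun u => ?_
        have h2 := (hW p x v u).symm.trans (hv u)
        rw [h1] at h2
        have h3 : ζ p x ![v, u] = 0 := by linarith
        rw [hζ] at h3
        exact h3
    · simp only [hG, map_add, alt2_add, alt2_add', inner_add_left]
      ring
    · simp only [hG, map_smul, alt2_smul, alt2_smul', inner_smul_left, conj_trivial]
      ring
    · rw [hG, hG, real_inner_comm]
      ring
    · have h1 : 0 < ⟪De x v, De x v⟫ :=
        real_inner_self_pos.2 fun h0 => hv (hDi x (by rw [h0, map_zero]))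
      rw [hG]
      by_cases hp : p ∈ N
      · have h2 := hKt p hp x v hv
        have h3 := ht0 p
        have h4 := ht1 p
        rcases eq_or_lt_of_le h3 with h5 | h5
        · rw [← h5]
          linarith
        · have h6 : 0 < t p * ((ζ p x ![v, K p x v] + ζ p x ![v, K p x v]) / 2) :=
            mul_pos h5 (by linarith)
          have h7 : 0 ≤ (1 - t p) * ⟪De x v, De x v⟫ := mul_nonneg (by linarith) h1.le
          linarith
      · obtain ⟨-, h2⟩ := (hsN p hp).self_of_nhds
        rw [h2]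
        linarith
  -- continuity
  have hpb : ∀ (x₀ : X) (p : P) (u v v' : E d),
      ζ p ((chartAt (E d) x₀).symm u) ![A x₀ u v, A x₀ u v'] =
        pb (chartAt (E d) x₀).symm (Ω p) u ![v, v'] := by
    intro x₀ p u v v'
    rw [hζ]
    exact (pb_apply2 _ _ _ _ _).symm
  have hKA : ∀ (x₀ : X) (p : P) (u : E d), u ∈ (chartAt (E d) x₀).target → ∀ v : E d,
      K p ((chartAt (E d) x₀).symm u) (A x₀ u v) = A x₀ u (inChart (J₁ p) x₀ u v) := by
    intro x₀ p u hu v
    rw [hK]
    exact (AB x₀ hu _).symm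
  have cζ : ∀ (x₀ : X) (p : P) (u v v' : E d), u ∈ (chartAt (E d) x₀).target →
      ∀ f g : (P × E d) × F d × F d → F d, ContinuousAt f ((p, u), v, v') →
        ContinuousAt g ((p, u), v, v') → ContinuousAt (fun q : (P × E d) × F d × F d =>
          pb (chartAt (E d) x₀).symm (Ω q.1.1) q.1.2 ![f q, g q]) ((p, u), v, v') := by
    intro x₀ p u v v' hu f g hf hg
    have h1 : ContinuousAt (fun q : P × E d => pb (chartAt (E d) x₀).symm (Ω q.1) q.2) (p, u) :=
      (hΩ.zero (chartAt (E d) x₀).open_target contMDiffOn_chart_symm).continuousAt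
        (prod_mem_nhds univ_mem ((chartAt (E d) x₀).open_target.mem_nhds hu))
    have h2 : ContinuousAt (fun q : (P × E d) × F d × F d =>
        pb (chartAt (E d) x₀).symm (Ω q.1.1) q.1.2) ((p, u), v, v') :=
      ContinuousAt.comp (f := Prod.fst) (x := ((p, u), v, v')) h1 continuousAt_fst
    have h3 : ContinuousAt (fun q : (P × E d) × F d × F d => (![f q, g q] : Fin 2 → E d))
        ((p, u), v, v') := by
      rw [continuousAt_pi]
      intro i
      fin_cases i
      · exact hf
      · exact hg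
    exact h2.eval h3
  have cJ : ∀ (x₀ : X) (p : P) (u v v' : E d), p ∈ N → u ∈ (chartAt (E d) x₀).target →
      ∀ f : (P × E d) × F d × F d → F d, ContinuousAt f ((p, u), v, v') →
        ContinuousAt (fun q : (P × E d) × F d × F d =>
          (inChart (J₁ q.1.1) x₀ q.1.2 (f q) : F d)) ((p, u), v, v') := by
    intro x₀ p u v v' hp hu f hf
    have h1 : ContinuousAt (fun q : P × E d => inChart (J₁ q.1) x₀ q.2) (p, u) :=
      (hJ₁ x₀).continuousAt (prod_mem_nhds (hN.mem_nhds hp)
        ((chartAt (E d) x₀).open_target.mem_nhds hu))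
    have h2 : ContinuousAt (fun q : (P × E d) × F d × F d => inChart (J₁ q.1.1) x₀ q.1.2)
        ((p, u), v, v') :=
      ContinuousAt.comp (f := Prod.fst) (x := ((p, u), v, v')) h1 continuousAt_fst
    exact h2.clm_apply hf
  have c1 : ∀ (p : P) (u v v' : E d),
      ContinuousAt (fun q : (P × E d) × F d × F d => q.2.1) ((p, u), v, v') := fun p u v v' =>
    (continuous_fst.comp continuous_snd).continuousAt
  have c2 : ∀ (p : P) (u v v' : E d),
      ContinuousAt (fun q : (P × E d) × F d × F d => q.2.2) ((p, u), v, v') := fun p u v v' =>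
    (continuous_snd.comp continuous_snd).continuousAt
  have cs : ∀ (p : P) (u v v' : E d),
      ContinuousAt (fun q : (P × E d) × F d × F d => s q.1.1) ((p, u), v, v') := fun p u v v' =>
    (hsc.comp (continuous_fst.comp continuous_fst)).continuousAt
  have ct : ∀ (p : P) (u v v' : E d),
      ContinuousAt (fun q : (P × E d) × F d × F d => t q.1.1) ((p, u), v, v') := fun p u v v' =>
    (htc.comp (continuous_fst.comp continuous_fst)).continuousAt
  have hnt : ∀ (x₀ : X) (p : P) (u v v' : E d), u ∈ (chartAt (E d) x₀).target →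
      ∀ᶠ q : (P × E d) × F d × F d in 𝓝 ((p, u), v, v'), q.1.2 ∈ (chartAt (E d) x₀).target :=
    fun x₀ p u v v' hu => (continuous_snd.comp continuous_fst).continuousAt.eventually
      ((chartAt (E d) x₀).open_target.mem_nhds hu)
  have hWc : ∀ (x₀ : X) (p : P) (u : E d), u ∈ (chartAt (E d) x₀).target → ∀ v v' : F d,
      ContinuousAt (fun q : (P × E d) × F d × F d => W q.1.1 ((chartAt (E d) x₀).symm q.1.2)
        (A x₀ q.1.2 q.2.1) (A x₀ q.1.2 q.2.2)) ((p, u), v, v') := by
    intro x₀ p u hu v v'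
    by_cases hp : p ∈ N
    · have h1 : ContinuousAt (fun q : (P × E d) × F d × F d =>
          (1 - s q.1.1) * pb (chartAt (E d) x₀).symm (Ω q.1.1) q.1.2 ![q.2.1, q.2.2] +
            s q.1.1 * ((pb (chartAt (E d) x₀).symm (Ω q.1.1) q.1.2 ![q.2.1, q.2.2] +
              pb (chartAt (E d) x₀).symm (Ω q.1.1) q.1.2 ![inChart (J₁ q.1.1) x₀ q.1.2 q.2.1,
                inChart (J₁ q.1.1) x₀ q.1.2 q.2.2]) / 2)) ((p, u), v, v') := by
        have k1 := cζ x₀ p u v v' hu _ _ (c1 p u v v') (c2 p u v v')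
        have k2 := cζ x₀ p u v v' hu _ _ (cJ x₀ p u v v' hp hu _ (c1 p u v v'))
          (cJ x₀ p u v v' hp hu _ (c2 p u v v'))
        exact ((continuousAt_const.sub (cs p u v v')).mul k1).add
          ((cs p u v v').mul ((k1.add k2).div_const 2))
      refine h1.congr ?_
      filter_upwards [hnt x₀ p u v v' hu] with q hq
      rw [hW, hKA x₀ _ _ hq, hKA x₀ _ _ hq, hpb, hpb]
    · have k1 := cζ x₀ p u v v' hu _ _ (c1 p u v v') (c2 p u v v')
      refine k1.congr ?_
      have h0 : Tendsto (fun q : (P × E d) × F d × F d => q.1.1) (𝓝 ((p, u), v, v')) (𝓝 p) :=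
        (continuous_fst.comp continuous_fst).continuousAt
      have h2 : ∀ᶠ q : (P × E d) × F d × F d in 𝓝 ((p, u), v, v'), s q.1.1 = 0 ∧ t q.1.1 = 0 :=
        h0.eventually (hsN p hp)
      filter_upwards [h2] with q hq
      rw [hW, hq.1, hpb]
      ring
  -- the metric
  have hGc : ∀ (x₀ : X) (p : P) (u : E d), u ∈ (chartAt (E d) x₀).target → ∀ v v' : F d,
      ContinuousAt (fun q : (P × E d) × F d × F d => G q.1.1 ((chartAt (E d) x₀).symm q.1.2)
        (A x₀ q.1.2 q.2.1) (A x₀ q.1.2 q.2.2)) ((p, u), v, v') := by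
    intro x₀ p u hu v v'
    -- the derivative of the embedding in the chart
    obtain ⟨ê, hê⟩ : ∃ ê : E d → F n, ê = fun u => e ((chartAt (E d) x₀).symm u) := ⟨_, rfl⟩
    have hês : ContDiffOn ℝ ∞ ê (chartAt (E d) x₀).target := by
      rw [← contMDiffOn_iff_contDiffOn, hê]
      exact he.comp_contMDiffOn contMDiffOn_chart_symm
    have hêd : ContinuousOn (fderiv ℝ ê) (chartAt (E d) x₀).target :=
      hês.continuousOn_fderiv_of_isOpen (chartAt (E d) x₀).open_target (by simp)
    have hchain : ∀ u' ∈ (chartAt (E d) x₀).target, ∀ v : E d,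
        De ((chartAt (E d) x₀).symm u') (A x₀ u' v) = fderiv ℝ ê u' v := by
      intro u' hu' v
      have h1 : MDifferentiableAt (𝓡 d) (𝓡 d) (chartAt (E d) x₀).symm u' :=
        (contMDiffOn_chart_symm (I := 𝓡 d) (n := ∞) (x := x₀)).contMDiffAt
          ((chartAt (E d) x₀).open_target.mem_nhds hu') |>.mdifferentiableAt (by simp)
      have h2 : MDifferentiableAt (𝓡 d) (𝓡 n) e ((chartAt (E d) x₀).symm u') :=
        he.mdifferentiableAt (by simp)
      have h3 := mfderiv_comp u' h2 h1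
      have h4 : mfderiv (𝓡 d) (𝓡 n) (e ∘ (chartAt (E d) x₀).symm) u' = fderiv ℝ ê u' := by
        rw [hê, mfderiv_eq_fderiv]
        rfl
      rw [h4] at h3
      rw [h3, hDe]
      rfl
    have k3 : ContinuousAt (fun q : (P × E d) × F d × F d =>
        ⟪fderiv ℝ ê q.1.2 q.2.1, fderiv ℝ ê q.1.2 q.2.2⟫) ((p, u), v, v') := by
      have h1 : ContinuousAt (fderiv ℝ ê) u :=
        hêd.continuousAt ((chartAt (E d) x₀).open_target.mem_nhds hu)
      have h2 : ContinuousAt (fun q : (P × E d) × F d × F d => fderiv ℝ ê q.1.2)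
          ((p, u), v, v') :=
        ContinuousAt.comp (g := fderiv ℝ ê) (f := fun q : (P × E d) × F d × F d => q.1.2)
          (x := ((p, u), v, v')) h1 (continuous_snd.comp continuous_fst).continuousAt
      exact (h2.clm_apply (c1 p u v v')).inner (h2.clm_apply (c2 p u v v'))
    by_cases hp : p ∈ N
    · have k4 := cζ x₀ p u v v' hu _ _ (c1 p u v v') (cJ x₀ p u v v' hp hu _ (c2 p u v v'))
      have k5 := cζ x₀ p u v v' hu _ _ (c2 p u v v') (cJ x₀ p u v v' hp hu _ (c1 p u v v'))
      have h1 := ((continuousAt_const (y := (1 : ℝ)).sub (ct p u v v')).mul k3).add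
        ((ct p u v v').mul ((k4.add k5).div_const 2))
      refine h1.congr ?_
      filter_upwards [hnt x₀ p u v v' hu] with q hq
      rw [hG, hKA x₀ _ _ hq, hKA x₀ _ _ hq, hpb, hpb, hchain _ hq, hchain _ hq]
      rfl
    · refine k3.congr ?_
      have h0 : Tendsto (fun q : (P × E d) × F d × F d => q.1.1) (𝓝 ((p, u), v, v')) (𝓝 p) :=
        (continuous_fst.comp continuous_fst).continuousAt
      have h2 : ∀ᶠ q : (P × E d) × F d × F d in 𝓝 ((p, u), v, v'), s q.1.1 = 0 ∧ t q.1.1 = 0 :=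
        h0.eventually (hsN p hp)
      filter_upwards [h2, hnt x₀ p u v v' hu] with q hq hq'
      rw [hG, hq.2, hchain _ hq', hchain _ hq']
      ring
  obtain ⟨J, hJ1, hJ2⟩ := exists_JG (P := P) hdat hWc hGc
  refine ⟨J, fun p x v => (hJ2 p x).sq v, hJ1, fun p x v hv => ?_, fun p hp x v => ?_⟩
  · have key : 0 < ζ p x ![v, J p x v] := by
      by_cases hp : p ∈ N
      · by_cases h1 : s p = 0
        · have h2 := lt_of_lt_of_eq ((hJ2 p x).pos v hv) (hW p x v (J p x v))
          rw [h1] at h2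
          linarith
        · have h2 : 0 < s p := lt_of_le_of_ne (hs0 p) (Ne.symm h1)
          have h3 : t p = 1 := by
            rw [hs] at h2
            rw [htd]
            have h4 : 0 < 2 * χ p - 1 := by
              by_contra h5
              rw [max_eq_right (not_lt.1 h5)] at h2
              exact lt_irrefl _ h2
            exact min_eq_right (by linarith)
          exact tame_pol (ζ := fun v u => ζ p x ![v, u]) (fun v v' u => alt2_add _ _ _ _)
            (fun c v u => alt2_smul _ _ _ _) (fun v u => alt2_swap _ _ _) (hKK p hp x) (hs1 p)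
            (hs0 p) (hdat p x) (fun v u => hW p x v u) (fun v u => by
              rw [hG, h3]
              ring) (hJ2 p x) v hv
      · obtain ⟨h1, -⟩ := (hsN p hp).self_of_nhds
        have h2 := lt_of_lt_of_eq ((hJ2 p x).pos v hv) (hW p x v (J p x v))
        rw [h1] at h2
        linarith
    rw [hζ] at key
    exact key
  · have hpN : p ∈ N := by
      by_contra h
      have h1 := (hχN p h).self_of_nhds
      rw [hp] at h1
      exact one_ne_zero h1
    have h1 : s p = 1 := by
      rw [hs, hp]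
      norm_num
    have h2 : t p = 1 := by
      rw [htd, hp]
      norm_num
    have hswap : ∀ v u : F d, ζ p x ![v, u] = -ζ p x ![u, v] := fun v u => alt2_swap _ _ _
    have hneg : ∀ v u : F d, ζ p x ![v, -u] = -ζ p x ![v, u] := fun v u => by
      rw [← neg_one_smul ℝ u, alt2_smul']
      ring
    have hneg' : ∀ v u : F d, ζ p x ![-v, u] = -ζ p x ![v, u] := fun v u => by
      rw [← neg_one_smul ℝ v, alt2_smul]
      ring
    have hPK : Pol (n := d) (W p x) (G p x) (K p x) := by
      refine ⟨hKK p hpN x, fun v u => ?_, fun v u => ?_, fun v hv => ?_⟩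
      · rw [hG, hG, h2, hKK p hpN, hKK p hpN, hneg, hneg, hswap (K p x v) u,
          hswap (K p x u) v]
        ring
      · rw [hW, hW, h1, hKK p hpN, hKK p hpN, hneg, hneg, hswap (K p x v) u,
          hswap (K p x u) v]
        ring
      · rw [hWJ p hpN]
        exact hKt p hpN x v hv
    have h3 := Pol.unique (hdat p x) (hJ2 p x) hPK
    have h4 := congrArg (fun T : F d →L[ℝ] F d => T v) h3
    rw [hK] at h4
    exact h4

end Pool.Agent.U896.EQ
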